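import Mathlib
import Pool.Prelude.Def_F_79fae1ed
import Pool.Agent.Helper22.GC.VdC

/-!
# Block M: a minorant for the indicator function of `|θ| ≤ β` modulo 1
-/

set_option autoImplicit false

open Pool.Agent.Helper22.GC (ee)

namespace EG

namespace M

open Finset Real

/-- The weights. -/
noncomputable def a (K j : ℕ) : ℝ := sin (π * j / (2 * K))

noncomputable def b (K j : ℕ) : ℝ := cos (π * j / (2 * K))

theorem a_add {K : ℕ} (hK : 0 < K) (j : ℕ) : a K (K + j) = b K j := by
  have hK' : (K : ℝ) ≠ 0 := by positivity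
  unfold a b
  rw [← sin_add_pi_div_two]
  congr 1
  push_cast
  field_simp
  ring

theorem b_add {K : ℕ} (hK : 0 < K) (j : ℕ) : b K (K + j) = -a K j := by
  have hK' : (K : ℝ) ≠ 0 := by positivity
  unfold a b
  rw [← cos_add_pi_div_two]
  congr 1
  push_cast
  field_simp
  ring

theorem sum_sq {K : ℕ} (hK : 0 < K) : ∑ j ∈ range (K + K), a K j * a K j = K := by
  rw [sum_range_add (fun j => a K j * a K j), ← sum_add_distrib]
  have : ∀ j ∈ range K, a K j * a K j + a K (K + j) * a K (K + j) = 1 := by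
    intro j _
    rw [a_add hK]
    unfold a b
    nlinarith [sin_sq_add_cos_sq (π * j / (2 * K))]
  rw [sum_congr rfl this]
  simp

theorem sum_sc {K : ℕ} (hK : 0 < K) : ∑ j ∈ range (K + K), a K j * b K j = 0 := by
  rw [sum_range_add (fun j => a K j * b K j), ← sum_add_distrib]
  refine sum_eq_zero fun j _ => ?_
  rw [a_add hK, b_add hK]
  ring

theorem a_succ {K : ℕ} (j : ℕ) :
    a K (j + 1) = a K j * cos (π / (2 * K)) + b K j * sin (π / (2 * K)) := by
  unfold a b
  rw [← sin_add]
  congr 1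
  push_cast
  ring

theorem sum_shift {K : ℕ} (hK : 0 < K) :
    ∑ j ∈ range (K + K), a K j * a K (j + 1) = cos (π / (2 * K)) * K := by
  have : ∀ j ∈ range (K + K), a K j * a K (j + 1) =
      cos (π / (2 * K)) * (a K j * a K j) + sin (π / (2 * K)) * (a K j * b K j) := by
    intro j _
    rw [a_succ]
    ring
  rw [sum_congr rfl this, sum_add_distrib, ← mul_sum, ← mul_sum, sum_sq hK, sum_sc hK, mul_zero,
    add_zero]

theorem a_nonneg {K j : ℕ} (hK : 0 < K) (hj : j ≤ K + K) : 0 ≤ a K j := by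
  have hK' : (0 : ℝ) < K := by positivity
  unfold a
  apply sin_nonneg_of_nonneg_of_le_pi
  · positivity
  · rw [div_le_iff₀ (by positivity)]
    have : (j : ℝ) ≤ K + K := by exact_mod_cast hj
    nlinarith [pi_pos]

theorem a_le_one (K j : ℕ) : a K j ≤ 1 := sin_le_one _

theorem a_last {K : ℕ} (hK : 0 < K) : a K (K + K) = 0 := by
  have hK' : (K : ℝ) ≠ 0 := by positivity
  unfold a
  have : π * ((K + K : ℕ) : ℝ) / (2 * K) = π := by
    push_cast
    field_simp
    ring
  rw [this, sin_pi]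

/-- The square of the absolute value of `∑ a_j e(j x)`. -/
noncomputable def P (K : ℕ) (x : ℝ) : ℝ :=
  (∑ j ∈ range (K + K), a K j * cos (2 * π * j * x)) ^ 2 +
    (∑ j ∈ range (K + K), a K j * sin (2 * π * j * x)) ^ 2

theorem P_nonneg (K : ℕ) (x : ℝ) : 0 ≤ P K x := by unfold P; positivity

theorem P_eq (K : ℕ) (x : ℝ) : P K x = ∑ j ∈ range (K + K), ∑ l ∈ range (K + K),
    a K j * a K l * cos (2 * π * ((j : ℤ) - (l : ℤ) : ℤ) * x) := by
  unfold P
  rw [sq, sq, sum_mul_sum, sum_mul_sum, ← sum_add_distrib]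
  refine sum_congr rfl fun j _ => ?_
  rw [← sum_add_distrib]
  refine sum_congr rfl fun l _ => ?_
  have : 2 * π * (((j : ℤ) - (l : ℤ) : ℤ) : ℝ) * x = 2 * π * j * x - 2 * π * l * x := by
    push_cast
    ring
  rw [this, cos_sub]
  ring

theorem P_le {K : ℕ} (hK : 0 < K) (x : ℝ) : P K x ≤ (K + K : ℝ) ^ 2 := by
  rw [P_eq]
  have h : ∀ j ∈ range (K + K), ∑ l ∈ range (K + K),
      a K j * a K l * cos (2 * π * ((j : ℤ) - (l : ℤ) : ℤ) * x) ≤ (K + K : ℝ) := by
    intro j hj
    calc _ ≤ ∑ l ∈ range (K + K), (1 : ℝ) := by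
          refine sum_le_sum fun l hl => ?_
          have h1 := a_nonneg hK (mem_range.1 hj).le
          have h2 := a_nonneg hK (mem_range.1 hl).le
          have h3 := a_le_one K j
          have h4 := a_le_one K l
          have h5 : a K j * a K l ≤ 1 := mul_le_one₀ h3 h2 h4
          have h6 := cos_le_one (2 * π * ((j : ℤ) - (l : ℤ) : ℤ) * x)
          nlinarith [mul_nonneg h1 h2]
      _ = (K + K : ℝ) := by simp
  calc _ ≤ ∑ j ∈ range (K + K), (K + K : ℝ) := sum_le_sum h
    _ = (K + K : ℝ) ^ 2 := by simp; ring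

theorem lower {ι : Type*} (s : Finset ι) (θ : ι → ℝ) {K : ℕ} (hK : 0 < K) {B c : ℝ} (hc0 : 0 ≤ c)
    (hc1 : c ≤ 1)
    (hB : ∀ h : ℤ, h ≠ 0 → |h| ≤ K + K → |∑ i ∈ s, cos (2 * π * h * θ i)| ≤ B) :
    (cos (π / (2 * K)) - c) * K * s.card - 2 * B * (K + K : ℝ) ^ 2 ≤
      ∑ i ∈ s, (cos (2 * π * θ i) - c) * P K (θ i) := by
  set C : ℤ → ℝ := fun h => ∑ i ∈ s, cos (2 * π * h * θ i) with hC
  have hB0 : 0 ≤ B := le_trans (abs_nonneg _) (hB 1 one_ne_zero (by
    rw [abs_one]
    have : (0 : ℤ) < K := by exact_mod_cast hK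
    linarith))
  have hC0 : C 0 = s.card := by
    rw [hC]
    simp
  have e1 : ∑ i ∈ s, (cos (2 * π * θ i) - c) * P K (θ i) =
      ∑ j ∈ range (K + K), ∑ l ∈ range (K + K), a K j * a K l *
        ((C ((j : ℤ) - l + 1) + C ((j : ℤ) - l - 1)) / 2 - c * C ((j : ℤ) - l)) := by
    have e2 : ∀ i ∈ s, (cos (2 * π * θ i) - c) * P K (θ i) =
        ∑ j ∈ range (K + K), ∑ l ∈ range (K + K), a K j * a K l *
          ((cos (2 * π * (((j : ℤ) - l + 1 : ℤ) : ℝ) * θ i) +
            cos (2 * π * (((j : ℤ) - l - 1 : ℤ) : ℝ) * θ i)) / 2 -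
            c * cos (2 * π * (((j : ℤ) - l : ℤ) : ℝ) * θ i)) := by
      intro i _
      rw [P_eq, mul_sum]
      refine sum_congr rfl fun j _ => ?_
      rw [mul_sum]
      refine sum_congr rfl fun l _ => ?_
      have h1 : 2 * π * (((j : ℤ) - l + 1 : ℤ) : ℝ) * θ i =
          2 * π * (((j : ℤ) - l : ℤ) : ℝ) * θ i + 2 * π * θ i := by push_cast; ring
      have h2 : 2 * π * (((j : ℤ) - l - 1 : ℤ) : ℝ) * θ i =
          2 * π * (((j : ℤ) - l : ℤ) : ℝ) * θ i - 2 * π * θ i := by push_cast; ring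
      rw [h1, h2, cos_add, cos_sub]
      ring
    rw [sum_congr rfl e2, sum_comm]
    refine sum_congr rfl fun j _ => ?_
    rw [sum_comm]
    refine sum_congr rfl fun l _ => ?_
    rw [← mul_sum, sum_sub_distrib, ← sum_div, sum_add_distrib, ← mul_sum]
  rw [e1]
  have hlow : ∀ h : ℤ, |h| ≤ K + K → (s.card : ℝ) * (if h = 0 then 1 else 0) - B ≤ C h := by
    intro h hh
    by_cases h0 : h = 0
    · rw [if_pos h0, h0, hC0]; linarith
    · rw [if_neg h0]
      have := (abs_le.1 (hB h h0 hh)).1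
      show (s.card : ℝ) * 0 - B ≤ ∑ i ∈ s, cos (2 * π * h * θ i)
      linarith
  have hupp : ∀ h : ℤ, |h| ≤ K + K → C h ≤ (s.card : ℝ) * (if h = 0 then 1 else 0) + B := by
    intro h hh
    by_cases h0 : h = 0
    · rw [if_pos h0, h0, hC0]; linarith
    · rw [if_neg h0]
      have := (abs_le.1 (hB h h0 hh)).2
      show ∑ i ∈ s, cos (2 * π * h * θ i) ≤ (s.card : ℝ) * 0 + B
      linarith
  have hterm : ∀ j ∈ range (K + K), ∀ l ∈ range (K + K),
      a K j * a K l * ((s.card : ℝ) * (((if l = j + 1 then 1 else 0) +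
        (if j = l + 1 then 1 else 0)) / 2 - c * (if j = l then 1 else 0))) - 2 * B ≤
      a K j * a K l *
        ((C ((j : ℤ) - l + 1) + C ((j : ℤ) - l - 1)) / 2 - c * C ((j : ℤ) - l)) := by
    intro j hj l hl
    have hj' := mem_range.1 hj
    have hl' := mem_range.1 hl
    have h1 := hlow ((j : ℤ) - l + 1) (by rw [abs_le]; omega)
    have h2 := hlow ((j : ℤ) - l - 1) (by rw [abs_le]; omega)
    have h3 := hupp ((j : ℤ) - l) (by rw [abs_le]; omega)
    have i1 : (if (j : ℤ) - l + 1 = 0 then (1 : ℝ) else 0) = if l = j + 1 then 1 else 0 := by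
      congr 1
      simp only [eq_iff_iff]
      omega
    have i2 : (if (j : ℤ) - l - 1 = 0 then (1 : ℝ) else 0) = if j = l + 1 then 1 else 0 := by
      congr 1
      simp only [eq_iff_iff]
      omega
    have i3 : (if (j : ℤ) - l = 0 then (1 : ℝ) else 0) = if j = l then 1 else 0 := by
      congr 1
      simp only [eq_iff_iff]
      omega
    rw [i1] at h1
    rw [i2] at h2
    rw [i3] at h3
    set u : ℝ := if l = j + 1 then 1 else 0
    set v : ℝ := if j = l + 1 then 1 else 0
    set w : ℝ := if j = l then 1 else 0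
    have h4 : (s.card : ℝ) * ((u + v) / 2 - c * w) - 2 * B ≤
        (C ((j : ℤ) - l + 1) + C ((j : ℤ) - l - 1)) / 2 - c * C ((j : ℤ) - l) := by
      nlinarith [mul_le_mul_of_nonneg_left h3 hc0, mul_le_mul_of_nonneg_right hc1 hB0]
    have h5 := a_nonneg hK hj'.le
    have h6 := a_nonneg hK hl'.le
    have h7 : a K j * a K l ≤ 1 := mul_le_one₀ (a_le_one K j) h6 (a_le_one K l)
    have h8 : 0 ≤ a K j * a K l := mul_nonneg h5 h6
    have h9 := mul_le_mul_of_nonneg_left h4 h8
    nlinarith
  refine le_trans (le_of_eq ?_) (sum_le_sum fun j hj => sum_le_sum fun l hl => hterm j hj l hl)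
  have m1 : ∀ j ∈ range (K + K), ∑ l ∈ range (K + K),
      a K j * a K l * (if l = j + 1 then (1 : ℝ) else 0) = a K j * a K (j + 1) := by
    intro j hj
    have hj' := mem_range.1 hj
    simp only [mul_ite, mul_one, mul_zero]
    rw [sum_ite_eq']
    split_ifs with h
    · rfl
    · have : j + 1 = K + K := by
        have := mt mem_range.2 h
        omega
      rw [this, a_last hK, mul_zero]
  have m2 : ∑ j ∈ range (K + K), ∑ l ∈ range (K + K),
      a K j * a K l * (if j = l + 1 then (1 : ℝ) else 0) =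
      ∑ j ∈ range (K + K), a K j * a K (j + 1) := by
    rw [sum_comm, ← sum_congr rfl m1]
    refine sum_congr rfl fun j _ => sum_congr rfl fun l _ => ?_
    rw [mul_comm (a K l)]
  have m3 : ∀ j ∈ range (K + K), ∑ l ∈ range (K + K),
      a K j * a K l * (if j = l then (1 : ℝ) else 0) = a K j * a K j := by
    intro j hj
    simp only [mul_ite, mul_one, mul_zero]
    rw [sum_ite_eq, if_pos hj]
  have m4 : ∑ j ∈ range (K + K), ∑ l ∈ range (K + K),
      (a K j * a K l * ((s.card : ℝ) * (((if l = j + 1 then 1 else 0) +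
        (if j = l + 1 then 1 else 0)) / 2 - c * (if j = l then 1 else 0))) - 2 * B) =
      s.card * ((∑ j ∈ range (K + K), ∑ l ∈ range (K + K),
        a K j * a K l * (if l = j + 1 then (1 : ℝ) else 0) +
        ∑ j ∈ range (K + K), ∑ l ∈ range (K + K),
          a K j * a K l * (if j = l + 1 then (1 : ℝ) else 0)) / 2 -
        c * ∑ j ∈ range (K + K), ∑ l ∈ range (K + K),
          a K j * a K l * (if j = l then (1 : ℝ) else 0)) - 2 * B * (K + K : ℝ) ^ 2 := by
    have : 2 * B * (K + K : ℝ) ^ 2 = ∑ j ∈ range (K + K), ∑ l ∈ range (K + K), 2 * B := by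
      simp
      ring
    rw [this, mul_sub, add_div, mul_add, sum_div, sum_div, mul_sum, mul_sum, mul_sum, mul_sum,
      ← sum_add_distrib, ← sum_sub_distrib, ← sum_sub_distrib]
    refine sum_congr rfl fun j _ => ?_
    rw [sum_div, sum_div, mul_sum, mul_sum, mul_sum, mul_sum, ← sum_add_distrib,
      ← sum_sub_distrib, ← sum_sub_distrib]
    refine sum_congr rfl fun l _ => ?_
    ring
  rw [m4, sum_congr rfl m1, m2, sum_congr rfl m3, sum_shift hK, sum_sq hK]
  ring

end M

open M Real in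
theorem minorant {ι : Type*} (s : Finset ι) (θ : ι → ℝ) (β B : ℝ) (hβ : 0 < β) (hβ' : β ≤ 1 / 4)
    (hB : ∀ h : ℕ, 1 ≤ h → (h : ℝ) ≤ 2 / β + 2 → ‖∑ i ∈ s, ee (h * θ i)‖ ≤ B) :
    (β * s.card - 8 * B / β ^ 2) / 80 ≤
      ((s.filter (fun i => |θ i - round (θ i)| ≤ β)).card : ℝ) := by
  have hB0 : 0 ≤ B := le_trans (norm_nonneg _) (hB 1 le_rfl (by
    have : 0 < 2 / β := by positivity
    push_cast
    linarith))
  obtain ⟨K, hKdef⟩ : ∃ K : ℕ, K = ⌈1 / (2 * β)⌉₊ := ⟨_, rfl⟩
  have hK1 : 1 / (2 * β) ≤ K := by rw [hKdef]; exact Nat.le_ceil _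
  have hK2 : (K : ℝ) < 1 / (2 * β) + 1 := by
    rw [hKdef]; exact Nat.ceil_lt_add_one (by positivity)
  have hβi : 2 ≤ 1 / (2 * β) := by
    rw [le_div_iff₀ (by positivity)]
    linarith
  have hKpos : 0 < K := by
    have : (0 : ℝ) < K := by linarith
    exact_mod_cast this
  have hKr : (0 : ℝ) < K := by exact_mod_cast hKpos
  have hH1 : 1 ≤ β * (K + K) := by
    rw [div_le_iff₀ (by positivity)] at hK1
    linarith
  have hH2 : β * (K + K) ≤ 3 / 2 := by
    have h1 : (K : ℝ) + K ≤ 3 * (1 / (2 * β)) := by linarith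
    have h2 := mul_le_mul_of_nonneg_left h1 hβ.le
    have h3 : β * (3 * (1 / (2 * β))) = 3 / 2 := by field_simp
    linarith
  have hHle : (K : ℝ) + K ≤ 2 / β + 2 := by
    have : 2 * (1 / (2 * β)) = 1 / β := by field_simp
    have h2 : 0 < 1 / β := by positivity
    have h3 : 2 / β = 2 * (1 / β) := by ring
    linarith
  -- the cosine sums
  have hcos : ∀ h : ℤ, h ≠ 0 → |h| ≤ K + K → |∑ i ∈ s, cos (2 * π * h * θ i)| ≤ B := by
    intro h h0 hh
    have h1 := hB h.natAbs (by omega) (by
      refine le_trans ?_ hHle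
      have : (h.natAbs : ℤ) ≤ K + K := by rwa [Int.natCast_natAbs]
      exact_mod_cast this)
    refine le_trans ?_ h1
    have h2 : ∑ i ∈ s, cos (2 * π * h * θ i) = (∑ i ∈ s, ee (h.natAbs * θ i)).re := by
      rw [Complex.re_sum]
      refine Finset.sum_congr rfl fun i _ => ?_
      have h3 : ee (h.natAbs * θ i) =
          Complex.exp (((2 * π * (h.natAbs * θ i) : ℝ) : ℂ) * Complex.I) := by
        unfold Pool.Agent.Helper22.GC.ee
        congr 1
        push_cast
        ring
      rw [h3, Complex.exp_ofReal_mul_I_re]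
      have key : ∀ n : ℕ, (h = n ∨ h = -n) →
          cos (2 * π * h * θ i) = cos (2 * π * ((n : ℝ) * θ i)) := by
        rintro n (h4 | h4)
        · rw [h4]
          congr 1
          push_cast
          ring
        · rw [h4, ← cos_neg]
          congr 1
          push_cast
          ring
      exact key _ (Int.natAbs_eq h)
    rw [h2]
    exact Complex.abs_re_le_norm _
  set c : ℝ := cos (2 * π * β) with hc
  have hπ := pi_pos
  have hc0 : 0 ≤ c := cos_nonneg_of_neg_pi_div_two_le_of_le (by nlinarith) (by nlinarith)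
  have hc1 : c ≤ 1 := cos_le_one _
  have hlow := lower s θ hKpos hc0 hc1 hcos
  -- the constant
  have hconst : 6 * β ^ 2 ≤ cos (π / (2 * K)) - c := by
    have h1 : cos (π * β) ≤ cos (π / (2 * K)) := by
      apply cos_le_cos_of_nonneg_of_le_pi (by positivity) (by nlinarith)
      rw [div_le_iff₀ (by positivity)]
      nlinarith
    have h2 : cos (π * β) - c = 2 * sin (3 * π * β / 2) * sin (π * β / 2) := by
      have e1 : π * β = 3 * π * β / 2 - π * β / 2 := by ring
      have e2 : 2 * π * β = 3 * π * β / 2 + π * β / 2 := by ring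
      rw [hc, e2]
      conv_lhs => rw [e1]
      rw [cos_add, cos_sub]
      ring_nf
    have h3 : β ≤ sin (π * β / 2) := by
      have := mul_le_sin (x := π * β / 2) (by positivity) (by nlinarith)
      have e : 2 / π * (π * β / 2) = β := by field_simp
      rwa [e] at this
    have h4 : 3 * β ≤ sin (3 * π * β / 2) := by
      have := mul_le_sin (x := 3 * π * β / 2) (by positivity) (by nlinarith)
      have e : 2 / π * (3 * π * β / 2) = 3 * β := by field_simp
      rwa [e] at this
    nlinarith [mul_le_mul h3 h4 (by positivity) (le_trans hβ.le h3)]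
  -- the upper bound
  have hupp : ∑ i ∈ s, (cos (2 * π * θ i) - c) * P K (θ i) ≤
      ((s.filter (fun i => |θ i - round (θ i)| ≤ β)).card : ℝ) * 45 := by
    have h1 : ∀ i ∈ s, (cos (2 * π * θ i) - c) * P K (θ i) ≤
        if |θ i - round (θ i)| ≤ β then (45 : ℝ) else 0 := by
      intro i _
      split_ifs with hi
      · have h2 : cos (2 * π * θ i) - c ≤ 1 - c := by linarith [cos_le_one (2 * π * θ i)]
        have h3 : 1 - c ≤ 2 * (π * β) ^ 2 := by
          have e1 : c = 1 - 2 * sin (π * β) ^ 2 := by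
            rw [hc, show 2 * π * β = 2 * (π * β) by ring, cos_two_mul, cos_sq']
            ring
          have e2 : sin (π * β) ≤ π * β := sin_le (by positivity)
          have e3 : 0 ≤ sin (π * β) := sin_nonneg_of_nonneg_of_le_pi (by positivity) (by nlinarith)
          nlinarith
        have h4 := P_le hKpos (θ i)
        have h5 := P_nonneg K (θ i)
        calc (cos (2 * π * θ i) - c) * P K (θ i) ≤ (1 - c) * P K (θ i) :=
              mul_le_mul_of_nonneg_right h2 h5
          _ ≤ (2 * (π * β) ^ 2) * (K + K : ℝ) ^ 2 :=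
              mul_le_mul h3 h4 h5 (by positivity)
          _ = 2 * π ^ 2 * (β * (K + K)) ^ 2 := by ring
          _ ≤ 2 * π ^ 2 * (3 / 2) ^ 2 := by
              have : (β * (K + K)) ^ 2 ≤ (3 / 2) ^ 2 := by
                apply pow_le_pow_left₀ (by positivity) hH2
              exact mul_le_mul_of_nonneg_left this (by positivity)
          _ ≤ 45 := by
              have h6 := pi_lt_d4
              nlinarith
      · have h2 : cos (2 * π * θ i) ≤ c := by
          have e1 : cos (2 * π * θ i) = cos (2 * π * |θ i - round (θ i)|) := by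
            have e2 : 2 * π * |θ i - round (θ i)| = |2 * π * (θ i - round (θ i))| := by
              rw [abs_mul, abs_of_pos (by positivity : (0 : ℝ) < 2 * π)]
            rw [e2, cos_abs]
            have e3 : 2 * π * (θ i - round (θ i)) = 2 * π * θ i - round (θ i) * (2 * π) := by ring
            rw [e3, cos_sub_int_mul_two_pi]
          rw [e1, hc]
          have e4 := abs_sub_round (θ i)
          have e5 : β < |θ i - round (θ i)| := not_le.1 hi
          apply cos_le_cos_of_nonneg_of_le_pi (by positivity) (by nlinarith)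
          nlinarith
        nlinarith [P_nonneg K (θ i)]
    calc _ ≤ ∑ i ∈ s, if |θ i - round (θ i)| ≤ β then (45 : ℝ) else 0 := Finset.sum_le_sum h1
      _ = _ := by
        rw [← Finset.sum_filter]
        simp
  have hN : (0 : ℝ) ≤ s.card := Nat.cast_nonneg _
  have f1 : 3 * β * s.card ≤ (cos (π / (2 * K)) - c) * K * s.card := by
    apply mul_le_mul_of_nonneg_right _ hN
    nlinarith [mul_le_mul_of_nonneg_right hconst hKr.le]
  have f2 : 2 * B * (K + K : ℝ) ^ 2 ≤ 9 / 2 * (B / β ^ 2) := by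
    have : (K + K : ℝ) ^ 2 ≤ 9 / 4 / β ^ 2 := by
      rw [le_div_iff₀ (by positivity)]
      have : (β * (K + K)) ^ 2 ≤ (3 / 2) ^ 2 := pow_le_pow_left₀ (by positivity) hH2 _
      nlinarith
    calc 2 * B * (K + K : ℝ) ^ 2 ≤ 2 * B * (9 / 4 / β ^ 2) :=
          mul_le_mul_of_nonneg_left this (by positivity)
      _ = 9 / 2 * (B / β ^ 2) := by ring
  have f3 : 0 ≤ B / β ^ 2 := by positivity
  have f4 : 8 * B / β ^ 2 = 8 * (B / β ^ 2) := by ring
  have f5 : 0 ≤ β * s.card := by positivity
  rw [f4]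
  linarith

end EG
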